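import Pool.Agent.Helper425_zc.Comp4

set_option autoImplicit false

namespace Pool.Agent.Helper425_zc.Var.CornerFinIdx

open scoped MatrixGroups

/-- The matrices listed by `L`; a quadruple `(a, b, c, d)` stands for the matrix with rows
`(a, b)` and `(c, d)`. -/
def gens (L : List (ℤ × ℤ × ℤ × ℤ)) : Set (Matrix (Fin 2) (Fin 2) ℤ) :=
  {N | ∃ x ∈ L, N = !![x.1, x.2.1; x.2.2.1, x.2.2.2]}

/-- The semigroup they generate under multiplication. -/
def semi (L : List (ℤ × ℤ × ℤ × ℤ)) : Subsemigroup (Matrix (Fin 2) (Fin 2) ℤ) :=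
  Subsemigroup.closure (gens L)

/-- The class of inputs: up to nonzero integer factors the semigroup contains every element of
some finite index subgroup of `SL(2, ℤ)`. Nothing is assumed about the other members of the list
and of the semigroup: their determinants are arbitrary, zero included. -/
def Large (L : List (ℤ × ℤ × ℤ × ℤ)) : Prop :=
  ∃ Γ : Subgroup SL(2, ℤ), Γ.FiniteIndex ∧ ∀ γ ∈ Γ, ∃ M ∈ semi L, ∃ k : ℤ, k ≠ 0 ∧ M = k • γ.1

/-- One algorithm: whenever it stops its answer to the zero in the corner question is right, and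
it stops on every input of the class above. -/
theorem result : ∃ f : List (ℤ × ℤ × ℤ × ℤ) →. Bool, Partrec f ∧
    (∀ L b, b ∈ f L → (b = true ↔ ∃ M ∈ semi L, M 0 0 = 0)) ∧
    (∀ L, Large L → (f L).Dom) := by
  obtain ⟨f, hf, h1, h2⟩ :=
    Helper425_zc.algoG Helper425_zc.pp_chk4 (fun _ _ _ _ h => Helper425_zc.sound4 h)
  refine ⟨f, hf, h1, ?_⟩
  rintro L ⟨Γ, hΓ, hL⟩
  apply h2
  intro u w hu hw
  by_cases hr : Helper425_zc.Reach L u w
  · exact Or.inl hr
  refine Or.inr (Or.inr (Helper425_zc.chk4_complete hu hw Γ ?_ hr))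
  rintro γ hγ g ⟨v, hv, hpar⟩
  obtain ⟨M, hM, k, hk, rfl⟩ := hL γ hγ
  have hd : (k • γ.1).det ≠ 0 := by
    rw [Matrix.det_smul, γ.2]
    simpa using hk
  refine ⟨_, hv.trans (Helper425_zc.orb_of_mem hM hd v), ?_⟩
  obtain ⟨c, c1, c2⟩ := Helper425_zc.vec_of_par hpar
  obtain ⟨a1, a2, a3, a4⟩ := Helper425_zc.mulE _ γ g rfl
  rw [a1, a3]
  simp only [Helper425_zc.mact, Matrix.smul_apply, smul_eq_mul]
  rw [c1, c2]
  ring

end Pool.Agent.Helper425_zc.Var.CornerFinIdx
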