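import Pool.Agent.Helper425_zc.Red

set_option autoImplicit false

namespace Pool.Agent.Helper425_zc.Var.CornerMultGroup

/-- The matrices listed by `L`; a quadruple `(a, b, c, d)` stands for the matrix with rows
`(a, b)` and `(c, d)`. -/
def gens (L : List (ℤ × ℤ × ℤ × ℤ)) : Set (Matrix (Fin 2) (Fin 2) ℤ) :=
  {N | ∃ x ∈ L, N = !![x.1, x.2.1; x.2.2.1, x.2.2.2]}

/-- The semigroup they generate under multiplication. -/
def semi (L : List (ℤ × ℤ × ℤ × ℤ)) : Subsemigroup (Matrix (Fin 2) (Fin 2) ℤ) :=
  Subsemigroup.closure (gens L)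

/-- The matrix `M` written in the basis formed by the columns of `P`. -/
noncomputable def inBasis (P : Matrix (Fin 2) (Fin 2) ℚ) (M : Matrix (Fin 2) (Fin 2) ℤ) :
    Matrix (Fin 2) (Fin 2) ℚ :=
  P⁻¹ * M.map (fun z : ℤ => (z : ℚ)) * P

/-- Quotient of the two diagonal entries in the basis `P`; for a nonsingular `M` that is upper
triangular in that basis it is the quotient of the two eigenvalues, and `M` acts on the affine
line of directions by a map `x ↦ (mult P M) x + c`. -/
noncomputable def mult (P : Matrix (Fin 2) (Fin 2) ℚ) (M : Matrix (Fin 2) (Fin 2) ℤ) : ℚ :=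
  inBasis P M 0 0 / inBasis P M 1 1

/-- The class of inputs. In the basis `P` every nonsingular member of `L` is upper triangular
(equivalently, these members have a common rational eigenvector, the first column of `P`); the
multipliers of the nonsingular products form a group (each generator has an inverse among them);
two nonsingular members do not commute; and every prime occurring in the multiplier of a
generator occurs in the denominator of the multiplier, of absolute value below one, of some
product. Singular members are arbitrary. -/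
structure MultGroup (L : List (ℤ × ℤ × ℤ × ℤ)) (P : Matrix (Fin 2) (Fin 2) ℚ) : Prop where
  det_ne : P.det ≠ 0
  triangular : ∀ A ∈ gens L, A.det ≠ 0 → inBasis P A 1 0 = 0
  group : ∀ A ∈ gens L, A.det ≠ 0 → ∃ M ∈ semi L, M.det ≠ 0 ∧ mult P A * mult P M = 1
  noncomm : ∃ A ∈ gens L, ∃ B ∈ gens L, A.det ≠ 0 ∧ B.det ≠ 0 ∧ A * B ≠ B * A
  primes : ∀ p : ℕ, p.Prime → (∃ A ∈ gens L, A.det ≠ 0 ∧ padicValRat p (mult P A) ≠ 0) →
    ∃ M ∈ semi L, M.det ≠ 0 ∧ |mult P M| < 1 ∧ padicValRat p (mult P M) < 0

/-- One algorithm: whenever it stops its answer to the zero in the corner question is right, and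
it stops on every input of the class above. -/
theorem result : ∃ f : List (ℤ × ℤ × ℤ × ℤ) →. Bool, Partrec f ∧
    (∀ L b, b ∈ f L → (b = true ↔ ∃ M ∈ semi L, M 0 0 = 0)) ∧
    (∀ L, (∃ P, MultGroup L P) → (f L).Dom) := by
  obtain ⟨f, hf, h1, h2⟩ := Helper425_zc.algo
  refine ⟨f, hf, h1, ?_⟩
  rintro L ⟨P, hP⟩
  apply h2
  intro u w _ _
  exact Helper425_zc.case_group P hP.det_ne hP.triangular hP.group hP.noncomm hP.primes u w

end Pool.Agent.Helper425_zc.Var.CornerMultGroup
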