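import Pool.Agent.Helper425_zc.Mort2

set_option autoImplicit false

namespace Pool.Agent.Helper425_zc.Var.MortCollatz

open scoped Matrix

/-- The matrices listed by `L`; a quadruple `(a, b, c, d)` stands for the matrix with rows
`(a, b)` and `(c, d)`. -/
def gens (L : List (ℤ × ℤ × ℤ × ℤ)) : Set (Matrix (Fin 2) (Fin 2) ℤ) :=
  {N | ∃ x ∈ L, N = !![x.1, x.2.1; x.2.2.1, x.2.2.2]}

/-- The semigroup they generate under multiplication. -/
def semi (L : List (ℤ × ℤ × ℤ × ℤ)) : Subsemigroup (Matrix (Fin 2) (Fin 2) ℤ) :=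
  Subsemigroup.closure (gens L)

/-- Exactly one singular matrix is listed, namely the projection with rows `(1, 0)` and `(0, 0)`;
the other listed matrices are nonsingular and have a common rational eigenvector. -/
def OneProjection (L : List (ℤ × ℤ × ℤ × ℤ)) : Prop :=
  !![1, 0; 0, 0] ∈ gens L ∧ ∃ v : Fin 2 → ℤ, v ≠ 0 ∧
    ∀ M ∈ gens L, M ≠ !![1, 0; 0, 0] → M.det ≠ 0 ∧ ∃ c : ℤ, M *ᵥ v = c • v

/-- A rule `(m, r, d)` allows the step from the integer `x` to `(m x + r) / d`, if this is an
integer. With the two rules `(1, 0, 2)` and `(3, 1, 2)` exactly one step is possible from every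
integer: this is the `3 x + 1` map. -/
def Step (R : List (ℤ × ℤ × ℤ)) (x y : ℤ) : Prop := ∃ s ∈ R, s.2.2 * y = s.1 * x + s.2.1

/-- Relatively prime type: multipliers `m` and denominators `d` are not zero and every multiplier
is coprime to every denominator. -/
def RelPrime (R : List (ℤ × ℤ × ℤ)) : Prop :=
  ∀ s ∈ R, s.1 ≠ 0 ∧ s.2.2 ≠ 0 ∧ ∀ t ∈ R, Int.gcd s.1 t.2.2 = 1

/-- A reachability problem for these systems, to which the mortality problem for sets with a
single singular member, the others having a common rational eigenvector, is at least as hard: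
there is a computable many-one reduction. -/
theorem result : ∃ f : List (ℤ × ℤ × ℤ) × ℤ × ℤ → List (ℤ × ℤ × ℤ × ℤ), Computable f ∧
    ∀ i, OneProjection (f i) ∧
      ((RelPrime i.1 ∧ Relation.ReflTransGen (Step i.1) i.2.1 i.2.2) ↔ 0 ∈ semi (f i)) := by
  obtain ⟨f, hf, h⟩ := Helper425_zc.clz_mort
  refine ⟨fun i => (1, 0, 0, 0) :: f i, ?_, fun i => ⟨⟨⟨(1, 0, 0, 0), by simp, rfl⟩,
    ![1, -1], ?_, ?_⟩, (h i).2⟩⟩
  · exact Computable.list_cons.comp (Computable.const _) hf
  · intro h0
    have := congrFun h0 0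
    simp at this
  · rintro M ⟨A, hA, rfl⟩ hM
    have hA' : A ∈ f i := by
      rcases List.mem_cons.1 hA with h1 | h1
      · exact absurd (by rw [h1]) hM
      · exact h1
    obtain ⟨h1, c, h2⟩ := (h i).1 A hA'
    refine ⟨?_, c, ?_⟩
    · rw [Matrix.det_fin_two]
      simpa [Helper425_zc.dt] using h1
    · have e1 : A.1 * 1 + A.2.1 * (-1) = c := congrArg Prod.fst h2
      have e2 : A.2.2.1 * 1 + A.2.2.2 * (-1) = -c := congrArg Prod.snd h2
      ext k
      fin_cases k
      · simp [Matrix.mulVec, dotProduct, Fin.sum_univ_two]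
        linarith
      · simp [Matrix.mulVec, dotProduct, Fin.sum_univ_two]
        linarith

end Pool.Agent.Helper425_zc.Var.MortCollatz
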